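import Pool.Agent.helper33.SP.SpecC2S
import Pool.Agent.helper91.TP.SE3
import Pool.Agent.helper35.DP.NT

/-!
# Project sp, module VA15: the quarter turn
-/

namespace TP

open DP MeasureTheory

theorem VA15_conn {c : V → Bool} {k : Bool} {R : Set V} {p u : V}
    (h : Conn (fun v => !(c v)) k R p u) : Conn c (!k) R p u := by
  refine Con.mono ?_ h
  rintro v ⟨h1, h2⟩
  refine ⟨h1, ?_⟩
  rw [← h2]
  simp

theorem VA15_arms {c : V → Bool} {z : V} {a n : ℕ} (h : Std c 4 true z n (Dfree true z a)) (l : ℕ)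
    (hl : l < 4) : ∃ p ∈ bd z a, ∃ u ∈ bd z n, sd (zpt z n l) u ≤ n / 64 ∧
      Conn c (kol l) (HS true z n \ ((Dfree true z a).N (kol l) ∪
        opp 4 (zpt z n) (n / 8) (kol l))) p u := by
  have hk : MrkC c 4 true z n (Dfree true z a) (zpt z n) (n / 64) (n / 8) (kol l) := by
    cases hkk : kol l
    · exact h.2
    · exact h.1
  rcases hk with h1 | h1
  · exact h1 l hl rfl
  · have h4 : ((l + 2) % 4) % 2 = l % 2 := by omega
    have h2 := h1 ((l + 2) % 4) (Nat.mod_lt _ (by norm_num)) (by simp only [kol, h4])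
    have h3 : ((l + 2) % 4 + 2) % 4 = l := by omega
    rw [h3] at h2
    exact h2

theorem VA15_zpt (z : V) (n : ℕ) : ∀ l < 4, zpt z n l ∈ bd z n := by
  intro l hl
  show sd z _ = n
  interval_cases l <;> simp [zpt, sd]

theorem VA15_sd (z : V) (n : ℕ) : ∀ l < 4, ∀ l' < 4, l ≠ l' → n ≤ sd (zpt z n l) (zpt z n l') := by
  intro l hl l' hl' h
  interval_cases l <;> interval_cases l' <;> simp [zpt, sd] at h ⊢ <;> omega

theorem VA15_ord (z : V) (n : ℕ) (hn : 1 ≤ n) :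
    Ord 4 z n fun l => zpt z n ((l + 1) % 4) := by
  have h0 : zpt z n 0 = (z.1 + n, z.2) := by simp [zpt]
  have h1 : zpt z n 1 = (z.1, z.2 + n) := by simp [zpt]
  have h2 : zpt z n 2 = (z.1 - n, z.2) := by simp [zpt]
  have h3 : zpt z n 3 = (z.1, z.2 - n) := by simp [zpt]
  have p0 : pos z n (zpt z n 0) = n := by
    rw [h0]; unfold pos; rw [if_pos (by constructor <;> simp <;> omega)]; simp
  have p1 : pos z n (zpt z n 1) = 3 * n := by
    rw [h1]; unfold pos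
    rw [if_neg (by simp <;> omega), if_pos (by simp)]; simp
  have p2 : pos z n (zpt z n 2) = 5 * n := by
    rw [h2]; unfold pos
    rw [if_neg (by simp <;> omega), if_neg (by simp <;> omega), if_pos (by simp)]; simp
  have p3 : pos z n (zpt z n 3) = 7 * n := by
    rw [h3]; unfold pos
    rw [if_neg (by simp <;> omega), if_neg (by simp <;> omega), if_neg (by simp <;> omega)]; simp
  unfold DP.Ord
  rw [if_pos rfl]
  have b := VA15_zpt z n
  have e : ∀ l < 4, ∀ l' < 4, l ≠ l' → zpt z n l ≠ zpt z n l' := by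
    intro l hl l' hl' h e
    have h4 := VA15_sd z n l hl l' hl' h
    rw [e, sd_self] at h4
    omega
  norm_num
  refine ⟨⟨b 1 (by norm_num), b 2 (by norm_num), b 3 (by norm_num), b 0 (by norm_num)⟩, ?_, ?_⟩
  · simp [e 1 (by norm_num) 2 (by norm_num) (by norm_num),
      e 1 (by norm_num) 3 (by norm_num) (by norm_num),
      e 1 (by norm_num) 0 (by norm_num) (by norm_num),
      e 2 (by norm_num) 3 (by norm_num) (by norm_num),
      e 2 (by norm_num) 0 (by norm_num) (by norm_num),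
      e 3 (by norm_num) 0 (by norm_num) (by norm_num)]
  · left
    refine ⟨⟨b 1 (by norm_num), b 3 (by norm_num), b 2 (by norm_num), ?_⟩,
      ⟨b 3 (by norm_num), b 1 (by norm_num), b 0 (by norm_num), ?_⟩⟩
    · rw [p1, p2, p3, if_pos (by omega)]
      omega
    · rw [p1, p3, p0, if_neg (by omega)]
      omega

theorem VA15_pow {i h : ℕ} (hh : 8 ≤ h) (hi : h ≤ i) : 2 ^ i / 64 + 2 ^ (i - h) + 2 ^ (i - 4) ≤
    2 ^ i / 8 ∧ 8 * (2 ^ i / 64 + 2 ^ (i - h)) < 2 ^ i ∧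
      2 ^ (i - 1) + 2 * (2 ^ i / 64 + 2 ^ (i - h)) ≤ 2 ^ i ∧ 1 ≤ 2 ^ (i - h) ∧
      (8 * 2 ^ h) * 2 ^ (i - h) = 8 * 2 ^ i := by
  obtain ⟨k, rfl⟩ := Nat.exists_eq_add_of_le (hh.trans hi)
  have e1 : 2 ^ (8 + k - h) ≤ 2 ^ k := Nat.pow_le_pow_right (by norm_num) (by omega)
  have e2 : 2 ^ (8 + k - 4) = 16 * 2 ^ k := by
    have : 8 + k - 4 = 4 + k := by omega
    rw [this, pow_add]; norm_num
  have e3 : 2 ^ (8 + k - 1) = 128 * 2 ^ k := by
    have : 8 + k - 1 = 7 + k := by omega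
    rw [this, pow_add]; norm_num
  have e4 : 2 ^ (8 + k) = 256 * 2 ^ k := by rw [pow_add]; norm_num
  have e5 : 0 < 2 ^ k := by positivity
  have e6 : 1 ≤ 2 ^ (8 + k - h) := Nat.one_le_two_pow
  have e7 : (8 * 2 ^ h) * 2 ^ (8 + k - h) = 8 * 2 ^ (8 + k) := by
    have : 8 + k = h + (8 + k - h) := by omega
    rw [mul_assoc, ← pow_add, ← this]
  refine ⟨?_, ?_, ?_, e6, e7⟩
  · rw [e2, e4]; omega
  · rw [e4]; omega
  · rw [e3, e4]; omega

theorem VA15 (hSE2 : SE2_stmt) (hzero : Bzero_stmt) (hCG1 : CG1_stmt) (hCG2 : CG2_stmt) :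
    VA15_stmt := by
  classical
  obtain ⟨h, heh, C, hC, i₁, hhi₁, hSE2⟩ := hSE2 1 4 (by norm_num) (by norm_num)
  refine ⟨((8 * 2 ^ h : ℕ) : ℝ) ^ 4 * C, by positivity, i₁, ?_⟩
  intro z a i X hz hi hai hX
  have hhi : h ≤ i := hhi₁.trans hi
  obtain ⟨q1, q2, q3, q4, q5⟩ := VA15_pow (by omega) hhi
  have hn : 1 ≤ 2 ^ i := Nat.one_le_two_pow
  obtain ⟨τ, hτ, hnet⟩ := SE3_net hCG1 hCG2 z (2 ^ i) (2 ^ (i - h)) (8 * 2 ^ h) hn q4 q5
  set D := Dfree true z (2 ^ a) with hD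
  have hok : D.ok true z (2 ^ (i - 1)) := by
    have h1 : 2 ^ a ≤ 2 ^ (i - 1) := Nat.pow_le_pow_right (by norm_num) (by omega)
    simp only [Dat.ok, if_true, hD, Dfree]
    refine ⟨fun _ v hv => ?_, fun _ v hv => ?_⟩
    · have h2 : sd z v = 2 ^ a := hv
      show sd z v ≤ _
      omega
    · have h2 : sd z v < 2 ^ a := hv
      show sd z v ≤ _
      omega
  -- the index set
  let P : (Fin 4 → Fin (8 * 2 ^ h)) → Prop := fun ι => DP.Ord 4 z (2 ^ i) (SE3_y z τ ι) ∧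
    ∀ l < 4, ∀ l' < 4, l ≠ l' → 2 ^ (i - 1) ≤ sd (SE3_y z τ ι l) (SE3_y z τ ι l')
  let M : (Fin 4 → Fin (8 * 2 ^ h)) → Set (V → Bool) := fun ι => X ∩
    Ev fun c => Mrk c 4 true z (2 ^ i) D (SE3_y z τ ι) (2 ^ (i - h)) (2 ^ (i - 4))
  have hXL : Loc X Set.univ := hX.mono (Set.subset_univ _)
  have hyb : ∀ (ι : Fin 4 → Fin (8 * 2 ^ h)), ∀ l < 4, SE3_y z τ ι l ∈ bd z (2 ^ i) := by
    intro ι l hl
    simp only [SE3_y, hl, dif_pos]
    exact hτ _
  have hnx : nx true (2 ^ i) = 2 ^ (i + 1) := by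
    simp [nx, pow_succ, mul_comm]
  have hMz : ∀ ι, P ι → Pr (M ι) ≤ C * Pr (X ∩ S4 z a (i + 1)) := by
    intro ι hι
    have h0 := hSE2 4 true (fun _ => 0) z D X i (SE3_y z τ ι) (Or.inr rfl)
      (fun _ => ⟨le_rfl, zero_le_one⟩) hz hi (by simpa using hok) (by simpa [Extra] using hX)
      (hyb ι) hι.1 hι.2
    rw [hnx] at h0
    have l1 : Loc (M ι) Set.univ := (hXL.inter (SE3_Mrk_loc hok 4 (2 ^ i) (2 ^ (i - h))
      (2 ^ (i - 4)) (SE3_y z τ ι) (by norm_num))).mono (Set.subset_univ _)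
    have l2 : Loc (X ∩ S4 z a (i + 1)) Set.univ := (hXL.inter (SE3_Mrk_loc hok 4 (2 ^ (i + 1))
      (2 ^ (i + 1) / 64) (2 ^ (i + 1) / 8) (zpt z (2 ^ (i + 1))) (by norm_num))).mono
        (Set.subset_univ _)
    have e1 : Q (fun _ => 0) (M ι) (M ι) = Pr (M ι) := by
      rw [hzero (fun _ => 0) (M ι) (M ι) Set.univ l1 l1 (fun _ _ => rfl), Set.inter_self]
    have e2 : Q (fun _ => 0) (X ∩ S4 z a (i + 1)) (X ∩ S4 z a (i + 1)) =
        Pr (X ∩ S4 z a (i + 1)) := by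
      rw [hzero (fun _ => 0) _ _ Set.univ l2 l2 (fun _ _ => rfl), Set.inter_self]
    rw [← e1, ← e2]
    exact h0
  have hcover : (X ∩ {b | (fun v => !(b v)) ∈ S4 z a i}) ⊆
      ⋃ ι ∈ Finset.univ.filter P, M ι := by
    rintro b ⟨hbX, hb⟩
    have hb' : Std (fun v => !(col b v)) 4 true z (2 ^ i) (Dfree true z (2 ^ a)) := hb
    have harm : ∀ l : ℕ, ∃ t : Fin (8 * 2 ^ h), l < 4 → ∃ p ∈ bd z (2 ^ a), ∃ u ∈ bd z (2 ^ i),
        sd (zpt z (2 ^ i) ((l + 1) % 4)) u ≤ 2 ^ i / 64 ∧ sd (τ t) u ≤ 2 ^ (i - h) ∧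
        Conn (col b) (kol l) (HS true z (2 ^ i) \ ({v | sd z v < 2 ^ a} ∪
          opp 4 (zpt z (2 ^ i)) (2 ^ i / 8) (!(kol l)))) p u := by
      intro l
      by_cases hl : l < 4
      · obtain ⟨p, hp, u, hu, h1, h2⟩ := VA15_arms hb' ((l + 1) % 4) (Nat.mod_lt _ (by norm_num))
        obtain ⟨t, ht⟩ := hnet u hu
        refine ⟨t, fun _ => ⟨p, hp, u, hu, h1, ht, ?_⟩⟩
        have h3 := VA15_conn h2
        have h4 : kol ((l + 1) % 4) = !(kol l) := by
          unfold kol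
          rcases Nat.mod_two_eq_zero_or_one l with h5 | h5
          · have h6 : ((l + 1) % 4) % 2 = 1 := by omega
            simp [h5, h6]
          · have h6 : ((l + 1) % 4) % 2 = 0 := by omega
            simp [h5, h6]
        rw [h4, Bool.not_not] at h3
        exact h3
      · exact ⟨⟨0, by positivity⟩, fun h' => absurd h' hl⟩
    choose t ht using harm
    let ι : Fin 4 → Fin (8 * 2 ^ h) := fun l => t l
    have hy : ∀ l < 4, SE3_y z τ ι l = τ (t l) := by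
      intro l hl
      simp only [SE3_y, hl, dif_pos, ι]
    have hc : ∀ l < 4, sd (zpt z (2 ^ i) ((l + 1) % 4)) (SE3_y z τ ι l) ≤
        2 ^ i / 64 + 2 ^ (i - h) := by
      intro l hl
      obtain ⟨p, hp, u, hu, h1, h2, h3⟩ := ht l hl
      rw [hy l hl]
      have h4 := sd_triangle (zpt z (2 ^ i) ((l + 1) % 4)) u (τ (t l))
      rw [sd_comm u] at h4
      omega
    have hs : ∀ l < 4, ∀ l' < 4, l ≠ l' → 2 ^ i ≤
        sd (zpt z (2 ^ i) ((l + 1) % 4)) (zpt z (2 ^ i) ((l' + 1) % 4)) := by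
      intro l hl l' hl' hll
      exact VA15_sd z (2 ^ i) _ (Nat.mod_lt _ (by norm_num)) _ (Nat.mod_lt _ (by norm_num))
        (by omega)
    have hP : P ι := by
      refine ⟨NT_Ord (a := 2 ^ i / 64 + 2 ^ (i - h)) (Or.inr rfl) hCG1 hCG2 hn (VA15_ord z _ hn)
        (hyb ι) hc fun l hl l' hl' hll => lt_of_lt_of_le q2 (hs l hl l' hl' hll), ?_⟩
      intro l hl l' hl' hll
      have h1 := hs l hl l' hl' hll
      have h2 := hc l hl
      have h3 := hc l' hl'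
      have h4 := sd_triangle (zpt z (2 ^ i) ((l + 1) % 4)) (SE3_y z τ ι l)
        (zpt z (2 ^ i) ((l' + 1) % 4))
      have h5 := sd_triangle (SE3_y z τ ι l) (SE3_y z τ ι l') (zpt z (2 ^ i) ((l' + 1) % 4))
      rw [sd_comm (SE3_y z τ ι l')] at h5
      omega
    refine Set.mem_biUnion (x := ι) (by simpa using hP) ⟨hbX, ?_⟩
    have key : ∀ k, MrkC (col b) 4 true z (2 ^ i) D (SE3_y z τ ι) (2 ^ (i - h)) (2 ^ (i - 4)) k := by
      intro k
      left
      intro l hl hk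
      obtain ⟨p, hp, u, hu, h1, h2, h3⟩ := ht l hl
      refine ⟨p, hp, u, hu, by rw [hy l hl]; exact h2, ?_⟩
      subst hk
      refine Con.mono ?_ h3
      rintro v ⟨⟨hv1, hv2⟩, hv3⟩
      refine ⟨⟨hv1, ?_⟩, hv3⟩
      rintro (hv | ⟨m, hm, hkm, hmv⟩)
      · exact hv2 (Or.inl hv)
      · refine hv2 (Or.inr ⟨(m + 1) % 4, Nat.mod_lt _ (by norm_num), ?_, ?_⟩)
        · unfold kol at hkm ⊢
          rcases Nat.mod_two_eq_zero_or_one l with h5 | h5 <;>
            rcases Nat.mod_two_eq_zero_or_one m with h6 | h6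
          · simp [h5, h6] at hkm
          · have h7 : ((m + 1) % 4) % 2 = 0 := by omega
            simp [h5, h7]
          · have h7 : ((m + 1) % 4) % 2 = 1 := by omega
            simp [h5, h7]
          · simp [h5, h6] at hkm
        · have h4 := hc m hm
          have h5 := sd_triangle (zpt z (2 ^ i) ((m + 1) % 4)) (SE3_y z τ ι m) v
          omega
    exact ⟨key true, key false⟩
  have hcard : ((Finset.univ.filter P).card : ℝ) ≤ ((8 * 2 ^ h : ℕ) : ℝ) ^ 4 := by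
    have h1 : (Finset.univ.filter P).card ≤ Fintype.card (Fin 4 → Fin (8 * 2 ^ h)) :=
      Finset.card_le_univ _
    have h2 : Fintype.card (Fin 4 → Fin (8 * 2 ^ h)) = (8 * 2 ^ h) ^ 4 := by
      rw [Fintype.card_fun, Fintype.card_fin, Fintype.card_fin]
    rw [h2] at h1
    exact_mod_cast h1
  have h0 : 0 ≤ C * Pr (X ∩ S4 z a (i + 1)) := mul_nonneg hC.le measureReal_nonneg
  have : IsProbabilityMeasure P1 := by
    unfold P1
    infer_instance
  calc Pr (X ∩ {b | (fun v => !(b v)) ∈ S4 z a i})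
      ≤ Pr (⋃ ι ∈ Finset.univ.filter P, M ι) := measureReal_mono hcover (measure_ne_top _ _)
    _ ≤ ∑ ι ∈ Finset.univ.filter P, Pr (M ι) := measureReal_biUnion_finset_le _ _
    _ ≤ ∑ _ι ∈ Finset.univ.filter P, C * Pr (X ∩ S4 z a (i + 1)) :=
        Finset.sum_le_sum fun ι hι => hMz ι (Finset.mem_filter.1 hι).2
    _ = ((Finset.univ.filter P).card : ℝ) * (C * Pr (X ∩ S4 z a (i + 1))) := by
        rw [Finset.sum_const, nsmul_eq_mul]
    _ ≤ ((8 * 2 ^ h : ℕ) : ℝ) ^ 4 * (C * Pr (X ∩ S4 z a (i + 1))) :=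
        mul_le_mul_of_nonneg_right hcard h0
    _ = ((8 * 2 ^ h : ℕ) : ℝ) ^ 4 * C * Pr (X ∩ S4 z a (i + 1)) := by ring

end TP
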