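import Pool.Agent.helper96.SP.SpecTB

/-!
# Project sp, module TB5: extension of one arm
-/

namespace TP

open DP MeasureTheory

theorem TB5_loop {c : V → Bool} {k : Bool} {g : V} {ℓ : ℕ} {S : Set V} (h : Loop c k g ℓ S) :
    S.Nonempty ∧ ∀ v ∈ S, sd g v < 3 * ℓ ∧ c v = k := by
  obtain ⟨l, u, hl, -, rfl⟩ := h
  refine ⟨⟨u, hl.mem_left⟩, fun v hv => ?_⟩
  obtain ⟨-, h2, h3⟩ := hl.subset v hv
  exact ⟨h2, h3⟩

theorem TB5_pow {i η h : ℕ} (h3 : 3 ≤ η) (h2 : η + 2 ≤ h) (hi : h ≤ i) :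
    8 * 2 ^ (i - η) ≤ 2 ^ i ∧ 4 * 2 ^ (i - h) ≤ 2 ^ (i - η) ∧ 2 * (2 ^ i / 2) = 2 ^ i ∧
      1 ≤ 2 ^ (i - h) := by
  have e1 : 2 ^ i = 2 ^ η * 2 ^ (i - η) := by rw [← pow_add]; congr 1; omega
  have e2 : 2 ^ (i - η) = 2 ^ (h - η) * 2 ^ (i - h) := by rw [← pow_add]; congr 1; omega
  have e3 : 2 ^ 3 ≤ 2 ^ η := Nat.pow_le_pow_right (by norm_num) h3
  have e4 : 2 ^ 2 ≤ 2 ^ (h - η) := Nat.pow_le_pow_right (by norm_num) (by omega)
  have e5 : 2 ^ i = 2 * 2 ^ (i - 1) := by rw [← pow_succ']; congr 1; omega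
  refine ⟨?_, ?_, ?_, Nat.one_le_two_pow⟩
  · rw [e1]; exact Nat.mul_le_mul_right _ e3
  · rw [e2]; exact Nat.mul_le_mul_right _ e4
  · rw [e5]; omega

theorem TB5 (hLH : LH_stmt) (hLC : LC_stmt) (hCH1 : CH1_stmt) : TB5_stmt := by
  intro c k s x y p u i η h l gs h3 h2 hi hy hyu hyp hl hS hF hC hhd hlast
  obtain ⟨q1, q2, q3, q4⟩ := TB5_pow h3 h2 hi
  obtain ⟨S, hS⟩ := hS
  obtain ⟨g, hgl, hg⟩ := hlast
  have hxy : sd x y = 2 ^ i := hy
  obtain ⟨hSne, hSv⟩ := TB5_loop hS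
  -- the old path meets the big loop
  have hl1 : Con {v | v ∈ l} p u := hl.self.con
  obtain ⟨z, hzS, hz⟩ := hLH c k y _ S hS _ u p hl1.symm hyu hyp
  -- the chain
  have hgs : gs ≠ [] := by rintro rfl; simp at hhd
  obtain ⟨U, hU1, hU2, hU3⟩ := hCH1 c k _ gs hF hC hgs
  obtain ⟨S₀, hS₀, hS₀U⟩ := hU3 y (List.mem_of_head? hhd)
  obtain ⟨S₁, hS₁, hS₁U⟩ := hU3 g (List.mem_of_getLast? hgl)
  obtain ⟨⟨z₀, hz₀⟩, hS₀v⟩ := TB5_loop hS₀
  obtain ⟨⟨z₁, hz₁⟩, hS₁v⟩ := TB5_loop hS₁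
  have d0 := (hS₀v z₀ hz₀).1
  have d1 := (hS₁v z₁ hz₁).1
  have hfar : 3 * 2 ^ (i - η) ≤ sd y z₁ := by
    have t1 := sd_triangle x z₁ y
    have t2 := sd_triangle x y z₁
    have t3 := sd_triangle x z₁ g
    have t4 := sd_triangle x g z₁
    rw [sd_comm z₁ y] at t1
    rw [sd_comm z₁ g] at t3
    cases s with
    | true =>
      simp only [if_true, nx] at hg
      omega
    | false =>
      simp only [Bool.false_eq_true, if_false, nx] at hg
      omega
  obtain ⟨z', hz'S, hz'⟩ := hLH c k y _ S hS U z₀ z₁ (hU2 _ (hS₀U hz₀) _ (hS₁U hz₁)) (by omega) hfar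
  -- everything is connected
  set W : Set V := {v | v ∈ l} ∪ (S ∪ U) with hW
  have c1 : Con W p z := (hl1.trans hz).mono (by intro v hv; exact Or.inl hv)
  have c2 : Con W z z' := (hLC c k y _ S hS z hzS z' hz'S).mono
    (by intro v hv; exact Or.inr (Or.inl hv))
  have c3 : Con W z' z₁ := (hU2 _ hz'.mem_right _ (hS₁U hz₁)).mono
    (by intro v hv; exact Or.inr (Or.inr hv))
  have c4 : Con W p z₁ := (c1.trans c2).trans c3
  have hcol : ∀ v ∈ W, c v = k := by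
    rintro v (hv | hv | hv)
    · exact (hl.subset v hv).2
    · exact (hSv v hv).2
    · exact (hU1 v hv).2
  have hcase : ∀ v ∈ W, v ∈ l ∨ sd y v < 3 * 2 ^ (i - η) ∨ v ∈ reg (2 ^ (i - h)) gs := by
    rintro v (hv | hv | hv)
    · exact Or.inl hv
    · exact Or.inr (Or.inl (hSv v hv).1)
    · exact Or.inr (Or.inr (hU1 v hv).1)
  have hpH : p ∈ HS s x (2 ^ i) := (hl.subset p hl.mem_left).1
  have hlH : ∀ v ∈ l, v ∈ HS s x (2 ^ i) := fun v hv => (hl.subset v hv).1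
  cases s with
  | true =>
    simp only [if_true, nx] at hg
    have hpx : sd x p ≤ 2 ^ i := by simpa [HS, box] using hpH
    have t4 := sd_triangle x z₁ g
    rw [sd_comm z₁ g] at t4
    obtain ⟨w, hw, hcw, -⟩ := c4.exit (x := x) (m := 2 * 2 ^ i) (by omega) (by omega)
    obtain ⟨l', hl', -⟩ := hcw.exists_path
    refine ⟨w, l', ?_, ?_, ?_⟩
    · show sd x w = nx true (2 ^ i)
      simp only [nx, if_true]
      exact hw
    · rcases hcase w hcw.mem_right.1 with h4 | h4 | h4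
      · exfalso
        have h5 : sd x w ≤ 2 ^ i := by simpa [HS, box] using hlH w h4
        omega
      · exfalso
        have h5 := sd_triangle x y w
        omega
      · exact h4
    · refine hl'.mono ?_
      rintro v ⟨hv1, hv2⟩
      refine ⟨hcol v hv1, ?_, hcase v hv1⟩
      simp only [HS, nx, if_true]
      exact hv2
  | false =>
    simp only [Bool.false_eq_true, if_false, nx] at hg
    have hpx : 2 ^ i ≤ sd x p := by simpa [HS] using hpH
    have t4 := sd_triangle x g z₁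
    obtain ⟨w, hw, hcw, -⟩ := c4.enter (x := x) (m := 2 ^ i / 2) (by omega) (by omega)
    obtain ⟨l', hl', -⟩ := hcw.exists_path
    refine ⟨w, l', ?_, ?_, ?_⟩
    · show sd x w = nx false (2 ^ i)
      simp only [nx, Bool.false_eq_true, if_false]
      exact hw
    · rcases hcase w hcw.mem_right.1 with h4 | h4 | h4
      · exfalso
        have h5 : 2 ^ i ≤ sd x w := by simpa [HS] using hlH w h4
        omega
      · exfalso
        have h5 := sd_triangle x w y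
        rw [sd_comm w y] at h5
        omega
      · exact h4
    · refine hl'.mono ?_
      rintro v ⟨hv1, hv2⟩
      refine ⟨hcol v hv1, ?_, hcase v hv1⟩
      simp only [HS, nx, Bool.false_eq_true, if_false]
      exact hv2

end TP
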