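import Pool.Agent.helper96.SP.SpecTB

/-!
# Project sp, module TB7: locality, monotonicity and symmetry of the six arms
-/

namespace TP

open DP MeasureTheory

theorem TB7_rg {x : V} {E E' : Sp6} {i : ℕ} {k : Bool} (hk : kol6 i = k) :
    rg6 x E E' i ⊆ AR6 x E E' k := by
  rintro v ⟨h1, h2, h3⟩
  refine ⟨h1, fun j hj hjk => ⟨?_, ?_⟩⟩
  · by_contra h
    exact h2 ⟨j, hj, ⟨fun e => hjk (by rw [← e]; exact hk), Or.inl (by rw [hk]; exact fun e => hjk e.symm)⟩, not_lt.1 h⟩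
  · by_contra h
    exact h3 ⟨j, hj, ⟨fun e => hjk (by rw [← e]; exact hk), Or.inl (by rw [hk]; exact fun e => hjk e.symm)⟩, not_lt.1 h⟩

theorem TB7_imp {c c' : V → Bool} {k : Bool} {x : V} {E E' : Sp6}
    (hc : ∀ v ∈ AR6 x E E' k, c v = k → c' v = k) (h : Arm6 c k x E E') : Arm6 c' k x E E' := by
  obtain ⟨l, h1, h2⟩ := h
  refine ⟨l, fun i hi hk => ?_, h2⟩
  obtain ⟨p, u, hp, hpa, hu, hua, hl⟩ := h1 i hi hk
  exact ⟨p, u, hp, hpa, hu, hua, hl.mono fun v hv => ⟨hv.1, hc v (TB7_rg hk hv.1) hv.2⟩⟩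

theorem TB7_symm {c : V → Bool} {k : Bool} {x : V} {E E' : Sp6} (h : Arm6 c k x E E') :
    Arm6 c k x E' E := by
  obtain ⟨l, h1, h2⟩ := h
  refine ⟨fun i => (l i).reverse, fun i hi hk => ?_, fun i hi j hj hki hkj hij => ?_⟩
  · obtain ⟨p, u, hp, hpa, hu, hua, hl⟩ := h1 i hi hk
    refine ⟨u, p, hu, hua, hp, hpa, hl.reverse.mono ?_⟩
    rintro v ⟨⟨hv1, hv2, hv3⟩, hv4⟩
    refine ⟨⟨?_, hv3, hv2⟩, hv4⟩
    rw [min_comm, max_comm]
    exact hv1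
  · intro v hv w hw
    exact h2 i hi j hj hki hkj hij v (List.mem_reverse.1 hv) w (List.mem_reverse.1 hw)

theorem TB7 : TB7_stmt := by
  refine ⟨fun k x E E' => ⟨?_, ?_⟩, fun c x E E' => ⟨?_, ?_⟩⟩
  · have hfin : (AR6 x E E' k).Finite :=
      (box_finite x (max E.n E'.n)).subset fun v hv => hv.1.2
    exact Loc.ev hfin fun c c' hc =>
      ⟨TB7_imp fun v hv h => (hc v hv) ▸ h, TB7_imp fun v hv h => (hc v hv).symm ▸ h⟩
  · exact Mon.ev fun c c' hc => TB7_imp fun v _ h => hc v h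
  · exact fun h => ⟨TB7_symm h.1, TB7_symm h.2⟩
  · exact fun h => ⟨TB7_symm h.1, TB7_symm h.2⟩

end TP
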